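import Mathlib
import Pool.Agent.W250.RKJ.Stm

/-!
Project RKJ (helper250): `z` is a lower bound for the first eigenvalue of the ball (Jacobi's method).
-/

set_option autoImplicit false

open MeasureTheory Metric Set Filter Topology
open Pool.Agent.W250.RKJ

namespace Pool.Agent.W340.RKJ

variable {d : ℕ}

/-- the integral of the divergence of `W(x) x` vanishes -/
theorem euler (W : EuclideanSpace ℝ (Fin d) → ℝ) (hW : ContDiff ℝ 1 W)
    (hc : HasCompactSupport W) : ∫ x, (fderiv ℝ W x x + d * W x) = 0 := by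
  have hcW : Continuous W := hW.continuous
  have hcD : Continuous (fderiv ℝ W) := hW.continuous_fderiv one_ne_zero
  have hcs : HasCompactSupport (fderiv ℝ W) := hc.fderiv ℝ
  have hdiff : Differentiable ℝ W := hW.differentiable one_ne_zero
  set e : Fin d → EuclideanSpace ℝ (Fin d) := fun i => EuclideanSpace.basisFun (Fin d) ℝ i with he
  have hint1 : ∀ i, Integrable (fun x : EuclideanSpace ℝ (Fin d) => fderiv ℝ W x (e i) * x i) := by
    intro i
    apply Continuous.integrable_of_hasCompactSupport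
    · have : Continuous fun x : EuclideanSpace ℝ (Fin d) => x i := (EuclideanSpace.proj i).continuous
      exact (hcD.clm_apply continuous_const).mul this
    · apply HasCompactSupport.mul_right
      exact hcs.comp_left (g := fun L : EuclideanSpace ℝ (Fin d) →L[ℝ] ℝ => L (e i)) rfl
  have hint2 : Integrable W := hcW.integrable_of_hasCompactSupport hc
  have hint3 : ∀ i, Integrable (fun x : EuclideanSpace ℝ (Fin d) => W x * x i) := by
    intro i
    apply Continuous.integrable_of_hasCompactSupport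
    · have : Continuous fun x : EuclideanSpace ℝ (Fin d) => x i := (EuclideanSpace.proj i).continuous
      exact hcW.mul this
    · exact hc.mul_right
  have hpi : ∀ i, ∫ x, W x = -∫ x : EuclideanSpace ℝ (Fin d), fderiv ℝ W x (e i) * x i := by
    intro i
    have hfd : ∀ x : EuclideanSpace ℝ (Fin d),
        fderiv ℝ (fun x : EuclideanSpace ℝ (Fin d) => x i) x (e i) = 1 := by
      intro x
      have h1 : (fun x : EuclideanSpace ℝ (Fin d) => x i) = (EuclideanSpace.proj i : _ →L[ℝ] ℝ) := rfl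
      rw [h1, ContinuousLinearMap.fderiv, he]
      simp
    have h2 := integral_mul_fderiv_eq_neg_fderiv_mul_of_integrable (μ := volume) (f := W)
      (g := fun x : EuclideanSpace ℝ (Fin d) => x i) (v := e i) (hint1 i)
      (by simp only [hfd, mul_one]; exact hint2) (hint3 i) (fun x _ => hdiff x)
      (fun x _ => (EuclideanSpace.proj i : EuclideanSpace ℝ (Fin d) →L[ℝ] ℝ).differentiableAt)
    simp only [hfd, mul_one] at h2
    exact h2
  have hsum : ∀ x : EuclideanSpace ℝ (Fin d), fderiv ℝ W x x = ∑ i, fderiv ℝ W x (e i) * x i := by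
    intro x
    have h1 : ∑ i, x i • e i = x := (EuclideanSpace.basisFun (Fin d) ℝ).sum_repr x
    have h2 : fderiv ℝ W x (∑ i, x i • e i) = ∑ i, fderiv ℝ W x (e i) * x i := by
      rw [map_sum]
      apply Finset.sum_congr rfl
      intro i _
      rw [map_smul, smul_eq_mul, mul_comm]
    rw [h1] at h2
    exact h2
  have hint4 : Integrable (fun x : EuclideanSpace ℝ (Fin d) => fderiv ℝ W x x) := by
    simp only [hsum]
    exact integrable_finsetSum _ fun i _ => hint1 i
  rw [integral_add hint4 (hint2.const_mul _), integral_const_mul]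
  simp only [hsum]
  rw [integral_finsetSum _ fun i _ => hint1 i]
  have h3 : ∀ i, ∫ x : EuclideanSpace ℝ (Fin d), fderiv ℝ W x (e i) * x i = -∫ x, W x := by
    intro i
    rw [hpi i, neg_neg]
  simp only [h3]
  simp

theorem F_contDiff (h1 : SF) {ν : ℝ} (hν : 0 < ν) : ContDiff ℝ 1 (F ν) := by
  have hd : ∀ y, HasDerivAt (F ν) (-(F (ν + 1) y) / (4 * ν)) y := (h1 ν hν).2.1
  have hd' : ∀ y, HasDerivAt (F (ν + 1)) (-(F (ν + 1 + 1) y) / (4 * (ν + 1))) y :=
    (h1 (ν + 1) (by linarith)).2.1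
  rw [contDiff_one_iff_deriv]
  refine ⟨fun y => (hd y).differentiableAt, ?_⟩
  have h2 : deriv (F ν) = fun y => -(F (ν + 1) y) / (4 * ν) := funext fun y => (hd y).deriv
  rw [h2]
  have h3 : Continuous (F (ν + 1)) := continuous_iff_continuousAt.2 fun y => (hd' y).continuousAt
  exact (h3.neg).div_const _

theorem alg (z n f0 f1 f2 ν : ℝ) (h0 : f0 ≠ 0) (hν : ν ≠ 0) (hν1 : ν + 1 ≠ 0)
    (hrec : f0 = f1 - z * n / (4 * ν * (ν + 1)) * f2) :
    z / (2 * ν) * ((-f2 / (4 * (ν + 1)) * f0 - f1 * (-f1 / (4 * ν))) / f0 ^ 2) * (z * (2 * n)) +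
      2 * ν * (z / (2 * ν) * (f1 / f0)) = z + (z / (2 * ν) * (f1 / f0)) ^ 2 * n := by
  have hf2 : z * n * f2 - 4 * ν * (ν + 1) * (f1 - f0) = 0 := by
    rw [hrec]
    field_simp
    ring
  have h1 : (z / (2 * ν) * ((-f2 / (4 * (ν + 1)) * f0 - f1 * (-f1 / (4 * ν))) / f0 ^ 2) *
      (z * (2 * n)) + 2 * ν * (z / (2 * ν) * (f1 / f0))) - (z + (z / (2 * ν) * (f1 / f0)) ^ 2 * n) =
      -(z / (4 * ν * (ν + 1) * f0)) * (z * n * f2 - 4 * ν * (ν + 1) * (f1 - f0)) := by
    field_simp
    ring
  rw [hf2, mul_zero] at h1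
  linarith

theorem alg2 (V K L A n z d : ℝ) (halg : A + d * K = z + K ^ 2 * n) :
    V ^ 2 * A + K * (2 * V ^ (2 - 1) * L) + d * (V ^ 2 * K) =
      2 * V * K * L + V ^ 2 * (z + K ^ 2 * n) := by
  norm_num
  linear_combination V ^ 2 * halg

theorem alg3 (V K L G m z : ℝ) (h5 : -(V * K * L) ≤ |V * K| * (G * m)) :
    z * V ^ 2 ≤ 2 * V * K * L + V ^ 2 * (z + K ^ 2 * m ^ 2) + G ^ 2 := by
  have h6 : |V * K| ^ 2 = V ^ 2 * K ^ 2 := by rw [sq_abs]; ring
  have h7 : 0 ≤ (G - |V * K| * m) ^ 2 := sq_nonneg _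
  have h8 : (G - |V * K| * m) ^ 2 = G ^ 2 - 2 * (|V * K| * (G * m)) + |V * K| ^ 2 * m ^ 2 := by ring
  rw [h8, h6] at h7
  linarith

theorem hcs_sq (v : EuclideanSpace ℝ (Fin d) → ℝ) (hc : HasCompactSupport v) :
    HasCompactSupport fun x => v x ^ 2 := by
  apply HasCompactSupport.mono' hc
  intro x hx
  apply subset_tsupport
  rw [Function.mem_support] at hx ⊢
  intro h0
  apply hx
  rw [h0]
  norm_num

theorem hcs_sqD (v : EuclideanSpace ℝ (Fin d) → ℝ) (hc : HasCompactSupport v) :
    HasCompactSupport fun x => ‖fderiv ℝ v x‖ ^ 2 := by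
  apply HasCompactSupport.mono' (hc.fderiv ℝ)
  intro x hx
  apply subset_tsupport
  rw [Function.mem_support] at hx ⊢
  intro h0
  apply hx
  rw [h0, norm_zero]
  norm_num

/-- RJ-PIC -/
theorem pic (h1 : SF) : SPIC := by
  intro d z hd hz v hv hc hsupp
  obtain ⟨hz0, hFz, hpos⟩ := hz
  have hdpos : (0 : ℝ) < d := by
    have : (1 : ℝ) ≤ d := by exact_mod_cast hd
    linarith
  set ν : ℝ := (d : ℝ) / 2 with hν
  have hν0 : 0 < ν := by positivity
  have hc0 := F_contDiff h1 hν0
  have hc1 := F_contDiff h1 (show 0 < ν + 1 by linarith)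
  have hcv : Continuous v := hv.continuous
  have hcDv : Continuous (fderiv ℝ v) := hv.continuous_fderiv one_ne_zero
  set Y : EuclideanSpace ℝ (Fin d) → ℝ := fun x => z * ‖x‖ ^ 2 with hY
  have hYc : ContDiff ℝ 1 Y := contDiff_const.mul (contDiff_norm_sq ℝ)
  set K : EuclideanSpace ℝ (Fin d) → ℝ := fun x => z / d * (F (ν + 1) (Y x) / F ν (Y x)) with hK
  set W : EuclideanSpace ℝ (Fin d) → ℝ := fun x => v x ^ 2 * K x with hW
  have hpos' : ∀ x ∈ ball (0 : EuclideanSpace ℝ (Fin d)) 1, 0 < F ν (Y x) := by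
    intro x hx
    rw [mem_ball_zero_iff] at hx
    apply hpos
    · positivity
    · have : ‖x‖ ^ 2 < 1 := by
        have := norm_nonneg x
        nlinarith
      show z * ‖x‖ ^ 2 < z
      nlinarith
  have hKc : ∀ x ∈ ball (0 : EuclideanSpace ℝ (Fin d)) 1, ContDiffAt ℝ 1 K x := by
    intro x hx
    exact contDiffAt_const.mul (((hc1.comp hYc).contDiffAt).div ((hc0.comp hYc).contDiffAt)
      (hpos' x hx).ne')
  have hWz : ∀ x, x ∉ tsupport v → W =ᶠ[𝓝 x] fun _ => 0 := by
    intro x hx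
    have h2 := notMem_tsupport_iff_eventuallyEq.1 hx
    filter_upwards [h2] with y hy
    show v y ^ 2 * K y = 0
    rw [hy]
    simp
  have hWc : ContDiff ℝ 1 W := by
    rw [contDiff_iff_contDiffAt]
    intro x
    by_cases hx : x ∈ tsupport v
    · exact (hv.contDiffAt.pow 2).mul (hKc x (hsupp hx))
    · exact contDiffAt_const.congr_of_eventuallyEq (hWz x hx)
  have hWs : HasCompactSupport W := by
    exact (hcs_sq v hc).mul_right
  have hE := euler W hWc hWs
  -- the pointwise inequality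
  have hpt : ∀ x, z * v x ^ 2 ≤ (fderiv ℝ W x x + d * W x) + ‖fderiv ℝ v x‖ ^ 2 := by
    intro x
    by_cases hx : x ∈ tsupport v
    swap
    · have h2 : fderiv ℝ W x = 0 := by
        rw [(hWz x hx).fderiv_eq]
        simp
      have h3 : v x = 0 := image_eq_zero_of_notMem_tsupport hx
      have h4 : W x = 0 := (hWz x hx).self_of_nhds
      rw [h2, h3, h4]
      simp
    · have hxb := hsupp hx
      have hF0 := hpos' x hxb
      -- derivative of `K`
      have hdY : HasFDerivAt Y (z • (2 • innerSL ℝ x)) x :=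
        ((hasStrictFDerivAt_norm_sq x).hasFDerivAt).const_mul z
      have hd0 : HasDerivAt (F ν) (-(F (ν + 1) (Y x)) / (4 * ν)) (Y x) := (h1 ν hν0).2.1 (Y x)
      have hd1 : HasDerivAt (F (ν + 1)) (-(F (ν + 1 + 1) (Y x)) / (4 * (ν + 1))) (Y x) :=
        (h1 (ν + 1) (by linarith)).2.1 (Y x)
      have hrec := (h1 ν hν0).2.2 (Y x)
      have hdφ := (hd1.div hd0 hF0.ne').const_mul (z / d)
      have hdK : HasFDerivAt K _ x := hdφ.comp_hasFDerivAt x hdY
      have hdv : HasFDerivAt v (fderiv ℝ v x) x := (hv.differentiable one_ne_zero x).hasFDerivAt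
      have hdW : HasFDerivAt W _ x := (hdv.pow 2).mul hdK
      have hin : inner ℝ x x = ‖x‖ ^ 2 := real_inner_self_eq_norm_sq x
      have hkey : (fderiv ℝ W x x + d * W x) = 2 * v x * K x * fderiv ℝ v x x +
          v x ^ 2 * (z + K x ^ 2 * ‖x‖ ^ 2) := by
        rw [hdW.fderiv]
        rw [show (ν + 2 : ℝ) = ν + 1 + 1 by ring] at hrec
        have hdν : (d : ℝ) = 2 * ν := by rw [hν]; ring
        have halg := alg z (‖x‖ ^ 2) (F ν (Y x)) (F (ν + 1) (Y x)) (F (ν + 1 + 1) (Y x)) ν hF0.ne'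
          hν0.ne' (by linarith) hrec
        rw [← hdν] at halg
        have hKx : z / d * (F (ν + 1) (Y x) / F ν (Y x)) = K x := rfl
        rw [hKx] at halg
        have hWx : W x = v x ^ 2 * K x := rfl
        rw [hWx]
        simp only [add_apply, smul_apply, smul_eq_mul, innerSL_apply_apply, hin, nsmul_eq_mul,
          Nat.cast_ofNat]
        exact alg2 _ _ _ _ _ _ _ halg
      rw [hkey]
      have hle : |fderiv ℝ v x x| ≤ ‖fderiv ℝ v x‖ * ‖x‖ := by
        have := (fderiv ℝ v x).le_opNorm x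
        rwa [Real.norm_eq_abs] at this
      have h5 : -(v x * K x * fderiv ℝ v x x) ≤ |v x * K x| * (‖fderiv ℝ v x‖ * ‖x‖) := by
        calc -(v x * K x * fderiv ℝ v x x) ≤ |v x * K x * fderiv ℝ v x x| := neg_le_abs _
          _ = |v x * K x| * |fderiv ℝ v x x| := abs_mul _ _
          _ ≤ _ := mul_le_mul_of_nonneg_left hle (abs_nonneg _)
      exact alg3 _ _ _ _ _ _ h5
  -- integration
  have hi1 : Integrable fun x => v x ^ 2 :=
    Continuous.integrable_of_hasCompactSupport (hcv.pow 2) (hcs_sq v hc)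
  have hi2 : Integrable fun x => ‖fderiv ℝ v x‖ ^ 2 :=
    Continuous.integrable_of_hasCompactSupport (hcDv.norm.pow 2) (hcs_sqD v hc)
  have hi3 : Integrable fun x => fderiv ℝ W x x + d * W x := by
    apply Integrable.add
    · apply Continuous.integrable_of_hasCompactSupport
      · exact (hWc.continuous_fderiv one_ne_zero).clm_apply continuous_id
      · apply (hWs.fderiv ℝ).mono'
        intro x hx
        apply subset_tsupport
        rw [Function.mem_support] at hx ⊢
        intro h0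
        rw [h0] at hx
        exact hx rfl
    · exact (hWc.continuous.integrable_of_hasCompactSupport hWs).const_mul _
  calc z * (∫ x, v x ^ 2) = ∫ x, z * v x ^ 2 := (integral_const_mul _ _).symm
    _ ≤ ∫ x, ((fderiv ℝ W x x + d * W x) + ‖fderiv ℝ v x‖ ^ 2) :=
        integral_mono (hi1.const_mul _) (hi3.add hi2) hpt
    _ = ∫ x, ‖fderiv ℝ v x‖ ^ 2 := by
        rw [integral_add hi3 hi2, hE, zero_add]

end Pool.Agent.W340.RKJ
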