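import Mathlib
import Pool.Agent.W250.RKJ.Stm
import Pool.Agent.H212R2.KLS.T1

/-!
Project RKJ (helper250): Brunn-Minkowski with a ball.
-/

set_option autoImplicit false

open MeasureTheory Metric Set Filter Topology
open scoped ENNReal NNReal Pointwise
open Pool.Agent.W250.RKJ

namespace Pool.Agent.W340.RKJ

variable {d : ℕ}

theorem w_posB (d : ℕ) : 0 < w d := by
  unfold w
  apply ENNReal.toReal_pos
  · exact (measure_ball_pos _ _ one_pos).ne'
  · exact measure_ball_lt_top.ne

theorem bm_mult (t : ℝ) (ht0 : 0 < t) (ht1 : t < 1) (A C D : Set (EuclideanSpace ℝ (Fin d)))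
    (hA : MeasurableSet A) (hC : MeasurableSet C) (hD : MeasurableSet D)
    (h : ∀ x ∈ A, ∀ y ∈ C, (1 - t) • x + t • y ∈ D) :
    (volume A) ^ (1 - t) * (volume C) ^ t ≤ volume D := by
  have hPL := Pool.Agent.H212R2.KLS.PL (volume : Measure (EuclideanSpace ℝ (Fin d))) t ht0 ht1
    (A.indicator 1) (C.indicator 1)
    (D.indicator 1) (measurable_one.indicator hA)
    (measurable_one.indicator hC) (measurable_one.indicator hD) ?_
  · rw [lintegral_indicator_one hA, lintegral_indicator_one hC, lintegral_indicator_one hD] at hPL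
    exact hPL
  · intro x y
    by_cases hx : x ∈ A
    · by_cases hy : y ∈ C
      · rw [indicator_of_mem hx, indicator_of_mem hy, indicator_of_mem (h x hx y hy)]
        simp
      · rw [indicator_of_notMem hy, ENNReal.zero_rpow_of_pos ht0, mul_zero]
        exact bot_le
    · rw [indicator_of_notMem hx, ENNReal.zero_rpow_of_pos (by linarith), zero_mul]
      exact bot_le

theorem bern {a b : ℝ} (ha : 0 ≤ a) (hb : 0 ≤ b) (n : ℕ) :
    n * a ^ n * b ≤ a * ((a + b) ^ n - a ^ n) := by
  induction n with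
  | zero => simp
  | succ n ih =>
    have e : a * ((a + b) ^ (n + 1) - a ^ (n + 1)) =
        a * (a * ((a + b) ^ n - a ^ n)) + b * (a * ((a + b) ^ n - a ^ n)) + a ^ (n + 1) * b := by
      ring
    have h1 : a * (n * a ^ n * b) ≤ a * (a * ((a + b) ^ n - a ^ n)) :=
      mul_le_mul_of_nonneg_left ih ha
    have h2 : 0 ≤ b * (a * ((a + b) ^ n - a ^ n)) := by
      apply mul_nonneg hb
      exact le_trans (by positivity) ih
    rw [e]
    push_cast
    have e2 : ((n : ℝ) + 1) * a ^ (n + 1) * b = a * (n * a ^ n * b) + a ^ (n + 1) * b := by ring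
    rw [e2]
    linarith

/-- RJ-BM -/
theorem bm : SBM := by
  intro d hd A hAo hAb h hh
  have hd0 : (d : ℝ) ≠ 0 := by
    have : (1 : ℝ) ≤ d := by exact_mod_cast hd
    linarith
  have hdi : (d : ℝ)⁻¹ ≠ 0 := inv_ne_zero hd0
  have hAf : volume A < ∞ := hAb.measure_lt_top
  have hDf : volume (thickening h A) < ∞ := (hAb.thickening).measure_lt_top
  set M : ℝ := (volume A).toReal with hM
  have hM0 : 0 ≤ M := ENNReal.toReal_nonneg
  have hw := w_posB d
  rcases hM0.lt_or_eq with hMpos | hMz
  swap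
  · rw [← hMz, mul_zero, zero_div, Real.zero_rpow hdi, zero_div, zero_mul]
  -- the two radii
  set a : ℝ := M ^ ((d : ℝ)⁻¹) with ha
  set wr : ℝ := w d ^ ((d : ℝ)⁻¹) with hwr
  set b : ℝ := h * wr with hb
  have ha0 : 0 < a := Real.rpow_pos_of_pos hMpos _
  have hwr0 : 0 < wr := Real.rpow_pos_of_pos hw _
  have hb0 : 0 < b := mul_pos hh hwr0
  have had : a ^ d = M := by
    rw [ha, ← Real.rpow_natCast, ← Real.rpow_mul hM0, inv_mul_cancel₀ hd0, Real.rpow_one]
  have hwd : wr ^ d = w d := by
    rw [hwr, ← Real.rpow_natCast, ← Real.rpow_mul hw.le, inv_mul_cancel₀ hd0, Real.rpow_one]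
  have hab : 0 < a + b := by linarith
  set t : ℝ := b / (a + b) with ht
  have ht0 : 0 < t := by positivity
  have h1t : 1 - t = a / (a + b) := by rw [ht]; field_simp; ring
  have ht1 : t < 1 := by
    have : 0 < 1 - t := by rw [h1t]; positivity
    linarith
  have h1t0 : 0 < 1 - t := by linarith
  -- dilated sets
  have hfr : Module.finrank ℝ (EuclideanSpace ℝ (Fin d)) = d := by simp
  have hvA : volume ((1 - t)⁻¹ • A) = ENNReal.ofReal ((a + b) ^ d) := by
    rw [Measure.addHaar_smul, hfr, ← ENNReal.ofReal_toReal hAf.ne,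
      ← ENNReal.ofReal_mul (abs_nonneg _)]
    congr 1
    rw [← hM, abs_of_nonneg (by positivity), h1t, ← had, inv_div, div_pow]
    field_simp
  have hvB : volume (ball (0 : EuclideanSpace ℝ (Fin d)) (h / t)) = ENNReal.ofReal ((a + b) ^ d) := by
    haveI : Nonempty (Fin d) := ⟨⟨0, by omega⟩⟩
    rw [Measure.addHaar_ball _ _ (by positivity), hfr]
    have : volume (ball (0 : EuclideanSpace ℝ (Fin d)) 1) = ENNReal.ofReal (w d) := by
      unfold w
      rw [ENNReal.ofReal_toReal measure_ball_lt_top.ne]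
    rw [this, ← ENNReal.ofReal_mul (by positivity)]
    congr 1
    rw [← hwd, ← mul_pow]
    congr 1
    rw [ht, hb]
    field_simp
  have hth : thickening h A = A + ball (0 : EuclideanSpace ℝ (Fin d)) h := (add_ball_zero (s := A) (δ := h)).symm
  have hkey := bm_mult t ht0 ht1 ((1 - t)⁻¹ • A) (ball (0 : EuclideanSpace ℝ (Fin d)) (h / t))
    (thickening h A) (hAo.smul₀ (inv_ne_zero h1t0.ne')).measurableSet
    measurableSet_ball isOpen_thickening.measurableSet (by
      intro x hx y hy
      rw [hth]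
      refine add_mem_add ?_ ?_
      · obtain ⟨z, hz, rfl⟩ := hx
        show (1 - t) • (1 - t)⁻¹ • z ∈ A
        rw [smul_smul, mul_inv_cancel₀ h1t0.ne', one_smul]
        exact hz
      · rw [mem_ball_zero_iff] at hy ⊢
        rw [norm_smul, Real.norm_eq_abs, abs_of_pos ht0]
        calc t * ‖y‖ < t * (h / t) := mul_lt_mul_of_pos_left hy ht0
          _ = h := by field_simp)
  rw [hvA, hvB, ← ENNReal.rpow_add_of_nonneg _ _ h1t0.le ht0.le, sub_add_cancel,
    ENNReal.rpow_one] at hkey
  have h2 : (a + b) ^ d ≤ (volume (thickening h A)).toReal :=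
    (ENNReal.ofReal_le_iff_le_toReal hDf.ne).1 hkey
  have h3 := bern ha0.le hb0.le d
  have h4 : (M / w d) ^ ((d : ℝ)⁻¹) = a / wr := Real.div_rpow hM0 hw.le _
  rw [h4]
  have h5 : a * ((a + b) ^ d - a ^ d) ≤ a * ((volume (thickening h A)).toReal - M) := by
    rw [had]
    exact mul_le_mul_of_nonneg_left (by linarith) ha0.le
  have h6 : (d : ℝ) * a ^ d * b ≤ a * ((volume (thickening h A)).toReal - M) := h3.trans h5
  have hdp : (0 : ℝ) < d := by
    have : (1 : ℝ) ≤ d := by exact_mod_cast hd
    linarith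
  have h7 : a / wr / d * ((volume (thickening h A)).toReal - M) =
      (a * ((volume (thickening h A)).toReal - M)) / (wr * d) := by
    field_simp
  rw [h7, le_div_iff₀ (by positivity)]
  rw [had, hb] at h6
  linarith

end Pool.Agent.W340.RKJ
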