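import Mathlib
import Pool.Agent.W250.RKJ.Stm

/-!
Project RKJ (helper250): the weighted isoperimetric inequality from Brunn-Minkowski with a ball.
-/

set_option autoImplicit false

open MeasureTheory Metric Set Filter Topology
open scoped ENNReal NNReal
open Pool.Agent.W250.RKJ

namespace Pool.Agent.W340.RKJ

variable {d : ℕ}


/-- the mean value inequality, uniform in the point -/
theorem exists_h0 (u : EuclideanSpace ℝ (Fin d) → ℝ) (hu : ContDiff ℝ 1 u)
    (hc : HasCompactSupport u) (ε : ℝ) (hε : 0 < ε) :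
    ∃ h0 : ℝ, 0 < h0 ∧ ∀ x y, dist x y < h0 → u y ≤ u x + dist x y * (‖fderiv ℝ u x‖ + ε) := by
  have hcont : Continuous (fderiv ℝ u) := hu.continuous_fderiv one_ne_zero
  have hcs : HasCompactSupport (fderiv ℝ u) := hc.fderiv ℝ
  have huc : UniformContinuous (fderiv ℝ u) := hcs.uniformContinuous_of_continuous hcont
  rw [Metric.uniformContinuous_iff] at huc
  obtain ⟨h0, hh0, h1⟩ := huc ε hε
  refine ⟨h0, hh0, fun x y hxy => ?_⟩
  have hd : ∀ z ∈ ball x h0, DifferentiableAt ℝ u z := fun z _ =>
    (hu.differentiable one_ne_zero).differentiableAt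
  have hb : ∀ z ∈ ball x h0, ‖fderiv ℝ u z‖ ≤ ‖fderiv ℝ u x‖ + ε := by
    intro z hz
    have h2 := h1 (a := z) (b := x) hz
    rw [dist_eq_norm] at h2
    have h3 := norm_le_norm_add_norm_sub' (fderiv ℝ u z) (fderiv ℝ u x)
    linarith
  have h4 := (convex_ball x h0).norm_image_sub_le_of_norm_fderiv_le hd hb
    (mem_ball_self hh0) (mem_ball.2 (by rwa [dist_comm]))
  rw [Real.norm_eq_abs, ← dist_eq_norm, dist_comm y x] at h4
  have h5 := le_abs_self (u y - u x)
  nlinarith

theorem finite_lt {u : EuclideanSpace ℝ (Fin d) → ℝ} (hc : HasCompactSupport u) {t : ℝ}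
    (ht : 0 ≤ t) : volume {x | t < u x} < ∞ := by
  refine lt_of_le_of_lt (measure_mono ?_) hc.measure_lt_top
  intro x hx
  apply subset_tsupport
  rw [Function.mem_support]
  intro h0
  have : t < u x := hx
  linarith

theorem w_nonneg (d : ℕ) : 0 ≤ w d := ENNReal.toReal_nonneg

theorem mu_anti {u : EuclideanSpace ℝ (Fin d) → ℝ} (hc : HasCompactSupport u) {a b : ℝ}
    (ha : 0 ≤ a) (hab : a ≤ b) : mu u b ≤ mu u a :=
  ENNReal.toReal_mono (finite_lt hc ha).ne (measure_mono fun x (hx : b < u x) => hab.trans_lt hx)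

theorem rad_nonneg (u : EuclideanSpace ℝ (Fin d) → ℝ) (t : ℝ) : 0 ≤ rad u t :=
  Real.rpow_nonneg (div_nonneg ENNReal.toReal_nonneg (w_nonneg d)) _

theorem rad_anti {u : EuclideanSpace ℝ (Fin d) → ℝ} (hc : HasCompactSupport u) {a b : ℝ}
    (ha : 0 ≤ a) (hab : a ≤ b) : rad u b ≤ rad u a := by
  unfold rad
  apply Real.rpow_le_rpow (div_nonneg ENNReal.toReal_nonneg (w_nonneg d))
  · exact div_le_div_of_nonneg_right (mu_anti hc ha hab) (w_nonneg d)
  · positivity

theorem measurable_mu (u : EuclideanSpace ℝ (Fin d) → ℝ) : Measurable (mu u) := by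
  have h1 : Antitone fun t : ℝ => volume {x | t < u x} := fun a b hab =>
    measure_mono fun x (hx : b < u x) => hab.trans_lt hx
  exact h1.measurable.ennreal_toReal

theorem measurable_rad (u : EuclideanSpace ℝ (Fin d) → ℝ) : Measurable (rad u) := by
  unfold rad
  exact ((measurable_mu u).div_const _).pow_const _

/-- the inequality at one level -/
theorem step (hd : 1 ≤ d) (hBM : SBM) {u : EuclideanSpace ℝ (Fin d) → ℝ} (hu : Continuous u)
    (hc : HasCompactSupport u) {q : ℝ → ℝ} (hq0 : ∀ t, 0 ≤ q t) {ε h s : ℝ} (hh : 0 < h)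
    (hs : 0 < s) (hmv : ∀ x y, dist x y < h → u y ≤ u x + h * (‖fderiv ℝ u x‖ + ε))
    (hsmall : ∀ x, h * (‖fderiv ℝ u x‖ + ε) < s) (t : ℝ) (ht : s < t) :
    ENNReal.ofReal h * ENNReal.ofReal (q t * mu u t) ≤
      ENNReal.ofReal (q t * (rad u t / d)) *
        volume {x | u x ≤ t ∧ t < u x + h * (‖fderiv ℝ u x‖ + ε)} := by
  set A : Set (EuclideanSpace ℝ (Fin d)) := {x | t < u x} with hA
  set B : Set (EuclideanSpace ℝ (Fin d)) := {x | u x ≤ t ∧ t < u x + h * (‖fderiv ℝ u x‖ + ε)}
    with hB
  have hAo : IsOpen A := isOpen_lt continuous_const hu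
  have hAb : Bornology.IsBounded A := by
    refine hc.isBounded.subset fun x hx => subset_tsupport _ ?_
    rw [Function.mem_support]
    intro h0
    have : t < u x := hx
    linarith
  have hAf : volume A < ∞ := finite_lt hc (by linarith)
  have hBf : volume B < ∞ := by
    refine lt_of_le_of_lt (measure_mono ?_) (finite_lt hc le_rfl)
    intro x hx
    have h1 := hsmall x
    have h2 : t < u x + h * (‖fderiv ℝ u x‖ + ε) := hx.2
    show 0 < u x
    linarith
  have hsub : thickening h A ⊆ A ∪ B := by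
    intro y hy
    rw [mem_thickening_iff] at hy
    obtain ⟨x, hx, hxy⟩ := hy
    have h1 := hmv y x hxy
    have h2 : t < u x := hx
    by_cases h3 : t < u y
    · exact Or.inl h3
    · exact Or.inr ⟨not_lt.1 h3, h2.trans_le h1⟩
  have hth : (volume (thickening h A)).toReal ≤ (volume A).toReal + (volume B).toReal := by
    rw [← ENNReal.toReal_add hAf.ne hBf.ne]
    exact ENNReal.toReal_mono (ENNReal.add_lt_top.2 ⟨hAf, hBf⟩).ne
      ((measure_mono hsub).trans (measure_union_le _ _))
  have hbm := hBM d hd A hAo hAb h hh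
  have hθ : ((volume A).toReal / w d) ^ ((d : ℝ)⁻¹) / d = rad u t / d := rfl
  rw [hθ] at hbm
  have hθ0 : 0 ≤ rad u t / d := div_nonneg (rad_nonneg u t) (Nat.cast_nonneg _)
  have h1 : h * (volume A).toReal ≤ rad u t / d * (volume B).toReal :=
    hbm.trans (mul_le_mul_of_nonneg_left (by linarith) hθ0)
  have h2 : h * (q t * mu u t) ≤ q t * (rad u t / d) * (volume B).toReal := by
    have h3 := mul_le_mul_of_nonneg_left h1 (hq0 t)
    have h4 : mu u t = (volume A).toReal := rfl
    rw [h4]
    linarith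
  rw [← ENNReal.ofReal_mul hh.le]
  refine (ENNReal.ofReal_le_ofReal h2).trans (le_of_eq ?_)
  rw [ENNReal.ofReal_mul (mul_nonneg (hq0 t) hθ0), ENNReal.ofReal_toReal hBf.ne]

/-- the integrated inequality -/
theorem integ (hd : 1 ≤ d) (hBM : SBM) {u : EuclideanSpace ℝ (Fin d) → ℝ} (hu : ContDiff ℝ 1 u)
    (hc : HasCompactSupport u) {q : ℝ → ℝ} (hqc : Continuous q) (hqa : Antitone q)
    (hq0 : ∀ t, 0 ≤ q t) {ε h s : ℝ} (hε : 0 < ε) (hh : 0 < h)
    (hs : 0 < s) (hmv : ∀ x y, dist x y < h → u y ≤ u x + h * (‖fderiv ℝ u x‖ + ε))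
    (hsmall : ∀ x, h * (‖fderiv ℝ u x‖ + ε) < s) :
    ∫⁻ t in Ioi s, ENNReal.ofReal (q t * mu u t) ≤
      ∫⁻ x in {x | 0 < u x}, ENNReal.ofReal (q (u x) * (rad u (u x) / d)) *
        ENNReal.ofReal (‖fderiv ℝ u x‖ + ε) := by
  have hcu : Continuous u := hu.continuous
  have hcf : Continuous fun x => ‖fderiv ℝ u x‖ := (hu.continuous_fderiv one_ne_zero).norm
  have hcv : Continuous fun x => u x + h * (‖fderiv ℝ u x‖ + ε) := by fun_prop
  set G : ℝ → ℝ≥0∞ := fun t => ENNReal.ofReal (q t * (rad u t / d)) with hG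
  have hGm : Measurable G := by
    rw [hG]
    exact ENNReal.measurable_ofReal.comp (hqc.measurable.mul ((measurable_rad u).div_const _))
  have hGa : ∀ a b : ℝ, 0 ≤ a → a ≤ b → G b ≤ G a := by
    intro a b ha hab
    apply ENNReal.ofReal_le_ofReal
    apply mul_le_mul (hqa hab) _ (div_nonneg (rad_nonneg u b) (Nat.cast_nonneg _)) (hq0 a)
    exact div_le_div_of_nonneg_right (rad_anti hc ha hab) (Nat.cast_nonneg _)
  have hmpos : MeasurableSet {x | 0 < u x} := measurableSet_lt measurable_const hcu.measurable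
  have key : ENNReal.ofReal h * ∫⁻ t in Ioi s, ENNReal.ofReal (q t * mu u t) ≤
      ENNReal.ofReal h * ∫⁻ x in {x | 0 < u x}, G (u x) * ENNReal.ofReal (‖fderiv ℝ u x‖ + ε) := by
    calc ENNReal.ofReal h * ∫⁻ t in Ioi s, ENNReal.ofReal (q t * mu u t)
        = ∫⁻ t in Ioi s, ENNReal.ofReal h * ENNReal.ofReal (q t * mu u t) := by
          rw [lintegral_const_mul]
          exact ENNReal.measurable_ofReal.comp (hqc.measurable.mul (measurable_mu u))
      _ ≤ ∫⁻ t in Ioi s, G t *
            volume {x | u x ≤ t ∧ t < u x + h * (‖fderiv ℝ u x‖ + ε)} := by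
          apply setLIntegral_mono' measurableSet_Ioi
          intro t ht
          exact step hd hBM hcu hc hq0 hh hs hmv hsmall t ht
      _ = ∫⁻ t in Ioi s, ∫⁻ x, {x | u x ≤ t ∧ t < u x + h * (‖fderiv ℝ u x‖ + ε)}.indicator
            (fun _ => G t) x := by
          apply lintegral_congr
          intro t
          rw [lintegral_indicator_const]
          exact (measurableSet_le hcu.measurable measurable_const).inter
            (measurableSet_lt measurable_const hcv.measurable)
      _ = ∫⁻ x, ∫⁻ t in Ioi s, {x | u x ≤ t ∧ t < u x + h * (‖fderiv ℝ u x‖ + ε)}.indicator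
            (fun _ => G t) x := by
          rw [lintegral_lintegral_swap]
          apply Measurable.aemeasurable
          have hS : MeasurableSet {p : ℝ × EuclideanSpace ℝ (Fin d) |
              u p.2 ≤ p.1 ∧ p.1 < u p.2 + h * (‖fderiv ℝ u p.2‖ + ε)} :=
            (measurableSet_le (hcu.measurable.comp measurable_snd) measurable_fst).inter
              (measurableSet_lt measurable_fst (hcv.measurable.comp measurable_snd))
          exact (hGm.comp measurable_fst).indicator hS
      _ ≤ ∫⁻ x, {x | 0 < u x}.indicator (fun x => ENNReal.ofReal h *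
            (G (u x) * ENNReal.ofReal (‖fderiv ℝ u x‖ + ε))) x := by
          apply lintegral_mono
          intro x
          by_cases hx : 0 < u x
          · rw [indicator_of_mem (show x ∈ {x | 0 < u x} from hx)]
            calc ∫⁻ t in Ioi s, {x | u x ≤ t ∧ t < u x + h * (‖fderiv ℝ u x‖ + ε)}.indicator
                  (fun _ => G t) x
                ≤ ∫⁻ t in Ioi s, (Ico (u x) (u x + h * (‖fderiv ℝ u x‖ + ε))).indicator
                  (fun _ => G (u x)) t := by
                  apply lintegral_mono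
                  intro t
                  dsimp only
                  by_cases ht : u x ≤ t ∧ t < u x + h * (‖fderiv ℝ u x‖ + ε)
                  · rw [indicator_of_mem (show x ∈ {x | u x ≤ t ∧ t < u x + h *
                      (‖fderiv ℝ u x‖ + ε)} from ht), indicator_of_mem (show t ∈ Ico (u x)
                      (u x + h * (‖fderiv ℝ u x‖ + ε)) from ht)]
                    exact hGa _ _ hx.le ht.1
                  · rw [indicator_of_notMem (show x ∉ {x | u x ≤ t ∧ t < u x + h *
                      (‖fderiv ℝ u x‖ + ε)} from ht)]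
                    exact bot_le
              _ ≤ ∫⁻ t, (Ico (u x) (u x + h * (‖fderiv ℝ u x‖ + ε))).indicator
                  (fun _ => G (u x)) t := setLIntegral_le_lintegral _ _
              _ = G (u x) * ENNReal.ofReal (h * (‖fderiv ℝ u x‖ + ε)) := by
                  rw [lintegral_indicator_const measurableSet_Ico, Real.volume_Ico,
                    add_sub_cancel_left]
              _ = ENNReal.ofReal h * (G (u x) * ENNReal.ofReal (‖fderiv ℝ u x‖ + ε)) := by
                  rw [ENNReal.ofReal_mul hh.le]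
                  ring
          · rw [indicator_of_notMem (show x ∉ {x | 0 < u x} from hx)]
            apply le_of_eq
            rw [← lintegral_zero (μ := volume.restrict (Ioi s))]
            apply setLIntegral_congr_fun measurableSet_Ioi
            intro t ht
            apply indicator_of_notMem
            rintro ⟨h1, h2⟩
            have h3 := hsmall x
            have h4 : s < t := ht
            push Not at hx
            linarith
      _ = ENNReal.ofReal h * ∫⁻ x in {x | 0 < u x}, G (u x) *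
            ENNReal.ofReal (‖fderiv ℝ u x‖ + ε) := by
          rw [lintegral_indicator hmpos, lintegral_const_mul]
          exact (hGm.comp hcu.measurable).mul
            (ENNReal.measurable_ofReal.comp (hcf.measurable.add_const _))
  exact (ENNReal.mul_le_mul_iff_right (ENNReal.ofReal_pos.2 hh).ne' ENNReal.ofReal_ne_top).1 key

/-- RJ-ISO -/
theorem iso (hBM : SBM) : SISO := by
  intro d hd u hu hc q hqc hqa hq0
  have hcu : Continuous u := hu.continuous
  have hcf : Continuous fun x => ‖fderiv ℝ u x‖ := (hu.continuous_fderiv one_ne_zero).norm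
  have hmpos : MeasurableSet {x | 0 < u x} := measurableSet_lt measurable_const hcu.measurable
  have hfin : volume {x | 0 < u x} < ∞ := finite_lt hc le_rfl
  set g : ℝ → ℝ := fun t => q t * (rad u t / d) with hg
  have hg0 : ∀ t, 0 ≤ g t := fun t =>
    mul_nonneg (hq0 t) (div_nonneg (rad_nonneg u t) (Nat.cast_nonneg _))
  have hgm : Measurable g := hqc.measurable.mul ((measurable_rad u).div_const _)
  have hga : ∀ b : ℝ, 0 ≤ b → g b ≤ g 0 := by
    intro b hb
    apply mul_le_mul (hqa hb) _ (div_nonneg (rad_nonneg u b) (Nat.cast_nonneg _)) (hq0 0)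
    exact div_le_div_of_nonneg_right (rad_anti hc le_rfl hb) (Nat.cast_nonneg _)
  -- bound for the gradient
  obtain ⟨M, hM⟩ : ∃ M, ∀ x, ‖fderiv ℝ u x‖ ≤ M :=
    (hu.continuous_fderiv one_ne_zero).bounded_above_of_compact_support (hc.fderiv ℝ)
  have hM0 : 0 ≤ M := (norm_nonneg _).trans (hM 0)
  set C : ℝ≥0∞ := ∫⁻ x in {x | 0 < u x}, ENNReal.ofReal (g (u x)) with hC
  have hCf : C < ∞ := by
    calc C ≤ ∫⁻ x in {x | 0 < u x}, ENNReal.ofReal (g 0) := by
          apply setLIntegral_mono' hmpos
          intro x hx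
          exact ENNReal.ofReal_le_ofReal (hga _ (le_of_lt hx))
      _ = ENNReal.ofReal (g 0) * volume {x | 0 < u x} := setLIntegral_const _ _
      _ < ∞ := ENNReal.mul_lt_top ENNReal.ofReal_lt_top hfin
  set R : ℝ≥0∞ := ∫⁻ x in {x | 0 < u x}, ENNReal.ofReal (g (u x)) *
    ENNReal.ofReal (‖fderiv ℝ u x‖) with hR
  have hRf : R < ∞ := by
    calc R ≤ ∫⁻ x in {x | 0 < u x}, ENNReal.ofReal (g (u x)) * ENNReal.ofReal M := by
          apply lintegral_mono
          intro x
          exact mul_le_mul_right (ENNReal.ofReal_le_ofReal (hM x)) _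
      _ = C * ENNReal.ofReal M := by
          rw [lintegral_mul_const]
          exact ENNReal.measurable_ofReal.comp (hgm.comp hcu.measurable)
      _ < ∞ := ENNReal.mul_lt_top hCf ENNReal.ofReal_lt_top
  have h1 : ∀ s : ℝ, 0 < s → ∀ ε : ℝ, 0 < ε →
      ∫⁻ t in Ioi s, ENNReal.ofReal (q t * mu u t) ≤ R + ENNReal.ofReal ε * C := by
    intro s hs ε hε
    obtain ⟨h0, hh0, hmv⟩ := exists_h0 u hu hc ε hε
    set h : ℝ := min h0 (s / (2 * (M + ε))) with hh
    have hMε : 0 < M + ε := by linarith
    have hhpos : 0 < h := lt_min hh0 (by positivity)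
    have hsmall : ∀ x, h * (‖fderiv ℝ u x‖ + ε) < s := by
      intro x
      have h2 : h ≤ s / (2 * (M + ε)) := min_le_right _ _
      have h3 : ‖fderiv ℝ u x‖ + ε ≤ M + ε := by linarith [hM x]
      calc h * (‖fderiv ℝ u x‖ + ε) ≤ s / (2 * (M + ε)) * (M + ε) :=
            mul_le_mul h2 h3 (by positivity) (by positivity)
        _ = s / 2 := by field_simp
        _ < s := by linarith
    have hmv' : ∀ x y, dist x y < h → u y ≤ u x + h * (‖fderiv ℝ u x‖ + ε) := by
      intro x y hxy
      have h2 := hmv x y (hxy.trans_le (min_le_left _ _))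
      have h3 : 0 ≤ ‖fderiv ℝ u x‖ + ε := by positivity
      nlinarith [mul_le_mul_of_nonneg_right hxy.le h3]
    refine (integ hd hBM hu hc hqc hqa hq0 hε hhpos hs hmv' hsmall).trans (le_of_eq ?_)
    calc ∫⁻ x in {x | 0 < u x}, ENNReal.ofReal (g (u x)) * ENNReal.ofReal (‖fderiv ℝ u x‖ + ε)
        = ∫⁻ x in {x | 0 < u x}, (ENNReal.ofReal (g (u x)) * ENNReal.ofReal (‖fderiv ℝ u x‖) +
            ENNReal.ofReal ε * ENNReal.ofReal (g (u x))) := by
          apply lintegral_congr
          intro x
          rw [ENNReal.ofReal_add (norm_nonneg _) hε.le]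
          ring
      _ = R + ENNReal.ofReal ε * C := by
          rw [lintegral_add_left, lintegral_const_mul]
          · exact ENNReal.measurable_ofReal.comp (hgm.comp hcu.measurable)
          · exact (ENNReal.measurable_ofReal.comp (hgm.comp hcu.measurable)).mul
              (ENNReal.measurable_ofReal.comp hcf.measurable)
  have h2 : ∀ s : ℝ, 0 < s → ∫⁻ t in Ioi s, ENNReal.ofReal (q t * mu u t) ≤ R := by
    intro s hs
    apply ENNReal.le_of_forall_pos_le_add
    intro ε hε _
    have h3 := h1 s hs (ε / (C.toReal + 1)) (by positivity)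
    refine h3.trans (add_le_add le_rfl ?_)
    rw [← ENNReal.ofReal_toReal hCf.ne, ← ENNReal.ofReal_mul (by positivity)]
    rw [ENNReal.ofReal_toReal hCf.ne]
    have h4 : (ε : ℝ) / (C.toReal + 1) * C.toReal ≤ ε := by
      have h5 : 0 ≤ C.toReal := ENNReal.toReal_nonneg
      rw [div_mul_eq_mul_div, div_le_iff₀ (by linarith)]
      have : (0 : ℝ) ≤ ε := ε.2
      nlinarith
    calc ENNReal.ofReal ((ε : ℝ) / (C.toReal + 1) * C.toReal) ≤ ENNReal.ofReal ε :=
          ENNReal.ofReal_le_ofReal h4
      _ = ε := ENNReal.ofReal_coe_nnreal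
  have h3 : ∫⁻ t in Ioi (0 : ℝ), ENNReal.ofReal (q t * mu u t) ≤ R := by
    have h4 : Ioi (0 : ℝ) = ⋃ n : ℕ, Ioi (1 / ((n : ℝ) + 1)) := by
      ext x
      simp only [mem_Ioi, mem_iUnion]
      constructor
      · intro hx
        exact exists_nat_one_div_lt hx
      · rintro ⟨n, hn⟩
        exact lt_trans (by positivity) hn
    rw [h4, setLIntegral_iUnion_of_directed]
    · exact iSup_le fun n => h2 _ (by positivity)
    · apply Monotone.directed_le
      intro a b hab
      apply Ioi_subset_Ioi
      apply one_div_le_one_div_of_le (by positivity)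
      have : (a : ℝ) ≤ b := by exact_mod_cast hab
      linarith
  -- back to the Bochner integral
  have e1 : ∫ t in Ioi (0 : ℝ), q t * mu u t =
      (∫⁻ t in Ioi (0 : ℝ), ENNReal.ofReal (q t * mu u t)).toReal :=
    integral_eq_lintegral_of_nonneg_ae (Eventually.of_forall fun t =>
      mul_nonneg (hq0 t) ENNReal.toReal_nonneg)
      ((hqc.measurable.mul (measurable_mu u)).aestronglyMeasurable)
  have e2 : ∫ x in {x | 0 < u x}, q (u x) * (rad u (u x) / d) * ‖fderiv ℝ u x‖ =
      (∫⁻ x in {x | 0 < u x}, ENNReal.ofReal (q (u x) * (rad u (u x) / d) *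
        ‖fderiv ℝ u x‖)).toReal :=
    integral_eq_lintegral_of_nonneg_ae (Eventually.of_forall fun x =>
      mul_nonneg (hg0 (u x)) (norm_nonneg _))
      (((hgm.comp hcu.measurable).mul hcf.measurable).aestronglyMeasurable)
  rw [e1, e2]
  have h5 : (∫⁻ x in {x | 0 < u x}, ENNReal.ofReal (q (u x) * (rad u (u x) / d) *
      ‖fderiv ℝ u x‖)) = R := by
    apply lintegral_congr
    intro x
    rw [ENNReal.ofReal_mul (hg0 (u x))]
  rw [h5]
  exact ENNReal.toReal_mono hRf.ne h3

end Pool.Agent.W340.RKJ
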